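import Mathlib

set_option autoImplicit false

namespace Pool.Agent.Results.MP_c4d56e_an.No

open Set MeasureTheory

/-- The digits `A = (0,0)`, `B = (1,0)`, `C = (0,1)`. -/
def dig : Fin 3 → ℝ × ℝ := ![(0, 0), (1, 0), (0, 1)]

/-- The coding map; the sequence `d 0, d 1, ...` stands for `d_1, d_2, ...`. -/
noncomputable def proj (β : ℝ) (d : ℕ → Fin 3) : ℝ × ℝ := ∑' i, (β ^ (i + 1))⁻¹ • dig (d i)

/-- The sequences that are the unique coding of the point they code. -/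
def U (β : ℝ) : Set (ℕ → Fin 3) := {d | ∀ e, proj β e = proj β d → e = d}

def LocConst (β : ℝ) : Prop :=
  ∃ ε > 0, ∀ β' ∈ Ioo (1 : ℝ) 2, |β' - β| < ε → U β' = U β

noncomputable def V (r : ℝ) (c : ℕ → ℝ) : ℝ := ∑' i, r ^ (i + 1) * c i

lemma summ {r : ℝ} (h0 : 0 < r) (h1 : r < 1) {c : ℕ → ℝ} (hc : ∀ i, 0 ≤ c i ∧ c i ≤ 1) :
    Summable fun i => r ^ (i + 1) * c i := by
  refine Summable.of_nonneg_of_le (fun i => mul_nonneg (pow_pos h0 _).le (hc i).1) (fun i => ?_)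
    ((summable_geometric_of_lt_one h0.le h1).mul_left r)
  rw [pow_succ']
  exact mul_le_of_le_one_right (by positivity) (hc i).2

lemma V_succ {r : ℝ} (h0 : 0 < r) (h1 : r < 1) {c : ℕ → ℝ} (hc : ∀ i, 0 ≤ c i ∧ c i ≤ 1) :
    V r c = r * (c 0 + V r fun i => c (i + 1)) := by
  rw [V, (summ h0 h1 hc).tsum_eq_zero_add, V, mul_add, ← tsum_mul_left]
  congr 1
  · simp
  · exact tsum_congr fun i => by ring

lemma V_nonneg {r : ℝ} (h0 : 0 < r) {c : ℕ → ℝ} (hc : ∀ i, 0 ≤ c i ∧ c i ≤ 1) : 0 ≤ V r c :=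
  tsum_nonneg fun i => mul_nonneg (pow_pos h0 _).le (hc i).1

lemma V_one {r : ℝ} (h0 : 0 < r) (h1 : r < 1) : V r (fun _ => 1) = r / (1 - r) := by
  have := V_succ h0 h1 (c := fun _ => 1) fun _ => ⟨zero_le_one, le_rfl⟩
  rw [eq_div_iff (by linarith)]
  linarith

def ind (D : Fin 3) (d : ℕ → Fin 3) (i : ℕ) : ℝ := if d i = D then 1 else 0

lemma ind_mem (D : Fin 3) (d : ℕ → Fin 3) (i : ℕ) : 0 ≤ ind D d i ∧ ind D d i ≤ 1 := by
  unfold ind; split_ifs <;> simp

lemma proj_eq {β : ℝ} (hβ : 1 < β) (d : ℕ → Fin 3) :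
    proj β d = (V β⁻¹ (ind 1 d), V β⁻¹ (ind 2 d)) := by
  have h0 : 0 < β⁻¹ := inv_pos.2 (by linarith)
  have h1 : β⁻¹ < 1 := inv_lt_one_of_one_lt₀ hβ
  have := (summ h0 h1 (ind_mem 1 d)).hasSum.prodMk (summ h0 h1 (ind_mem 2 d)).hasSum
  refine HasSum.tsum_eq ?_
  have e : (fun i => (β ^ (i + 1))⁻¹ • dig (d i))
      = fun x => (β⁻¹ ^ (x + 1) * ind 1 d x, β⁻¹ ^ (x + 1) * ind 2 d x) := by
    funext i
    unfold ind dig
    generalize d i = x
    fin_cases x <;> simp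
  rw [e]
  exact this

lemma V_all {β : ℝ} (hβ : 1 < β) {d e : ℕ → Fin 3} (h : proj β e = proj β d) (D : Fin 3) :
    V β⁻¹ (ind D e) = V β⁻¹ (ind D d) := by
  have h0 : 0 < β⁻¹ := inv_pos.2 (by linarith)
  have h1 : β⁻¹ < 1 := inv_lt_one_of_one_lt₀ hβ
  rw [proj_eq hβ, proj_eq hβ, Prod.mk.injEq] at h
  have hs : ∀ x : ℕ → Fin 3,
      V β⁻¹ (ind 0 x) + V β⁻¹ (ind 1 x) + V β⁻¹ (ind 2 x) = V β⁻¹ fun _ => 1 := by
    intro x
    unfold V
    rw [← (summ h0 h1 (ind_mem 0 x)).tsum_add (summ h0 h1 (ind_mem 1 x)),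
      ← ((summ h0 h1 (ind_mem 0 x)).add (summ h0 h1 (ind_mem 1 x))).tsum_add
        (summ h0 h1 (ind_mem 2 x))]
    refine tsum_congr fun i => ?_
    unfold ind
    generalize x i = y
    fin_cases y <;> simp
  have e1 := hs d
  have e2 := hs e
  fin_cases D
  · change V β⁻¹ (ind 0 e) = V β⁻¹ (ind 0 d)
    linarith [h.1, h.2]
  · exact h.1
  · exact h.2

lemma crit {β : ℝ} (hβ : 1 < β) {d : ℕ → Fin 3}
    (h : ∀ n D, V β⁻¹ (ind D fun i => d (i + n + 1)) < 1) : d ∈ U β := by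
  have h0 : 0 < β⁻¹ := inv_pos.2 (by linarith)
  have h1 : β⁻¹ < 1 := inv_lt_one_of_one_lt₀ hβ
  intro e he
  have hs : ∀ (x : ℕ → Fin 3) n D, V β⁻¹ (ind D fun i => x (i + n))
      = β⁻¹ * ((if x n = D then 1 else 0) + V β⁻¹ (ind D fun i => x (i + n + 1))) := by
    intro x n D
    rw [V_succ h0 h1 (ind_mem _ _)]
    simp only [ind, zero_add]
    congr 3
    funext i
    simp only [ind, Nat.add_right_comm i 1 n]
  have h2 : ∀ n, (∀ D, V β⁻¹ (ind D fun i => e (i + n)) = V β⁻¹ (ind D fun i => d (i + n))) →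
      e n = d n := by
    intro n hn
    by_contra hne
    have e1 := hn (e n)
    rw [hs, hs, if_pos rfl, if_neg (Ne.symm hne)] at e1
    have e2 := mul_left_cancel₀ h0.ne' e1
    have e3 := V_nonneg h0 (ind_mem (e n) fun i => e (i + n + 1))
    linarith [h n (e n)]
  have h3 : ∀ n D, V β⁻¹ (ind D fun i => e (i + n)) = V β⁻¹ (ind D fun i => d (i + n)) := by
    intro n
    induction n with
    | zero => exact V_all hβ he
    | succ n ih =>
      intro D
      have e1 := ih D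
      rw [hs, hs, h2 n ih] at e1
      exact add_left_cancel (mul_left_cancel₀ h0.ne' e1)
  exact funext fun n => h2 n (h3 n)

lemma V_sparse {r : ℝ} (h0 : 0 < r) (h1 : r + r ^ 2 < 1) {c : ℕ → ℝ}
    (hc : ∀ i, 0 ≤ c i ∧ c i ≤ 1) (hs : ∀ i, c i + c (i + 1) ≤ 1) : V r c < 1 := by
  have h2 : r < 1 := by nlinarith
  have e1 := V_succ h0 h2 hc
  have e2 : V r c + V r (fun i => c (i + 1)) ≤ r / (1 - r) := by
    rw [← V_one h0 h2]
    unfold V
    rw [← (summ h0 h2 hc).tsum_add (summ h0 h2 fun i => hc (i + 1))]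
    refine ((summ h0 h2 hc).add (summ h0 h2 fun i => hc (i + 1))).tsum_le_tsum (fun i => ?_)
      (summ h0 h2 fun _ => ⟨zero_le_one, le_rfl⟩)
    rw [← mul_add]
    exact mul_le_mul_of_nonneg_left (hs i) (pow_pos h0 _).le
  rw [le_div_iff₀ (by linarith)] at e2
  have e3 := (hc 0).2
  by_contra hv
  have e4 : V r c ≤ r * (1 + V r fun i => c (i + 1)) := by rw [e1]; gcongr
  have e5 : V r c * (1 - r) ≤ r * (1 + V r fun i => c (i + 1)) * (1 - r) :=
    mul_le_mul_of_nonneg_right e4 (by linarith)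
  have e6 := mul_le_mul_of_nonneg_left e2 h0.le
  have e7 : 1 * (1 - r ^ 2) ≤ V r c * (1 - r ^ 2) :=
    mul_le_mul_of_nonneg_right (not_lt.1 hv) (by nlinarith)
  nlinarith

lemma V_mono {r s : ℝ} (h0 : 0 < s) (hs : s < r) (h1 : r < 1) {c : ℕ → ℝ}
    (hc : ∀ i, 0 ≤ c i ∧ c i ≤ 1) (hv : V r c ≤ 1) : V s c < 1 := by
  have hr : 0 < r := h0.trans hs
  have : r * V s c ≤ s * V r c := by
    unfold V
    rw [← tsum_mul_left, ← tsum_mul_left]
    refine ((summ h0 (hs.trans h1) hc).mul_left r).tsum_le_tsum (fun i => ?_)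
      ((summ hr h1 hc).mul_left s)
    have := mul_le_mul_of_nonneg_right (pow_le_pow_left₀ h0.le hs.le i) (hc i).1
    have := mul_le_mul_of_nonneg_left this (mul_pos hr h0).le
    calc r * (s ^ (i + 1) * c i) = r * s * (s ^ i * c i) := by ring
      _ ≤ r * s * (r ^ i * c i) := this
      _ = _ := by ring
  by_contra hv'
  nlinarith [mul_le_mul_of_nonneg_left (not_lt.1 hv') hr.le,
    mul_le_mul_of_nonneg_left hv h0.le]

noncomputable def orb (β : ℝ) : ℕ → ℝ
  | 0 => 1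
  | k + 1 => β * orb β k - if 1 < β * orb β k then 1 else 0

noncomputable def dg (β : ℝ) (k : ℕ) : ℝ := if 1 < β * orb β k then 1 else 0

lemma dg_mem (β : ℝ) (k : ℕ) : 0 ≤ dg β k ∧ dg β k ≤ 1 := by
  unfold dg; split_ifs <;> simp

lemma orb_mem {β : ℝ} (h1 : 1 < β) (h2 : β < 2) (k : ℕ) : 0 ≤ orb β k ∧ orb β k ≤ 1 := by
  induction k with
  | zero => simp [orb]
  | succ k ih =>
    rw [orb]
    split_ifs with h
    · constructor <;> nlinarith [ih.1, ih.2]
    · constructor <;> nlinarith [ih.1, ih.2]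

lemma V_orb {β : ℝ} (h1 : 1 < β) (h2 : β < 2) (k : ℕ) :
    V β⁻¹ (fun i => dg β (i + k)) = orb β k := by
  have h0 : 0 < β⁻¹ := inv_pos.2 (by linarith)
  have h3 : β⁻¹ < 1 := inv_lt_one_of_one_lt₀ h1
  have hb : β ≠ 0 := by linarith
  have e1 : ∀ n, ∑ i ∈ Finset.range n, β⁻¹ ^ (i + 1) * dg β (i + k)
      = orb β k - β⁻¹ ^ n * orb β (n + k) := by
    intro n
    induction n with
    | zero => simp
    | succ n ih =>
      rw [Finset.sum_range_succ, ih, Nat.add_right_comm n 1 k, orb, dg, pow_succ]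
      field_simp
      ring
  have e2 := (summ h0 h3 fun i => dg_mem β (i + k)).hasSum.tendsto_sum_nat
  have e3 : Filter.Tendsto (fun n => β⁻¹ ^ n * orb β (n + k)) Filter.atTop (nhds 0) := by
    refine squeeze_zero (fun n => mul_nonneg (pow_pos h0 _).le (orb_mem h1 h2 _).1)
      (fun n => mul_le_of_le_one_right (pow_pos h0 _).le (orb_mem h1 h2 _).2)
      (tendsto_pow_atTop_nhds_zero_of_lt_one h0.le h3)
  simp only [e1] at e2
  exact (tendsto_nhds_unique e2 (e3.const_sub _)).trans (sub_zero _)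

noncomputable def seq (β : ℝ) : ℕ → Fin 3
  | 0 => 0
  | k + 1 => if 1 < β * orb β k then 1 else if Even k then 2 else 0

lemma ind_seq (β : ℝ) (n : ℕ) :
    (ind 1 fun i => seq β (i + n + 1)) = fun i => dg β (i + n) := by
  funext i
  simp only [ind, seq, dg]
  split_ifs <;> simp_all

lemma seq_mem {β γ : ℝ} (h1 : 1 < β) (h2 : β < 2) (h3 : β < γ) (h4 : γ + 1 < γ ^ 2) :
    seq β ∈ U γ := by
  have hγ : 0 < γ := by linarith
  have h0 : 0 < γ⁻¹ := inv_pos.2 hγ
  have h5 : γ⁻¹ + γ⁻¹ ^ 2 < 1 := by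
    have : γ⁻¹ + γ⁻¹ ^ 2 = (γ + 1) / γ ^ 2 := by field_simp
    rw [this, div_lt_one (by positivity)]
    exact h4
  refine crit (by linarith) fun n D => ?_
  by_cases hD : D = 1
  · rw [hD, ind_seq]
    refine V_mono h0 ((inv_lt_inv₀ hγ (by linarith)).2 h3) (inv_lt_one_of_one_lt₀ h1)
      (fun i => dg_mem _ _) ?_
    rw [V_orb h1 h2]
    exact (orb_mem h1 h2 n).2
  · refine V_sparse h0 h5 (ind_mem _ _) fun i => ?_
    simp only [ind, seq, Nat.add_right_comm i 1 n, Nat.even_add_one]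
    have hD' : D = 0 ∨ D = 2 := by
      fin_cases D
      exacts [Or.inl rfl, absurd rfl hD, Or.inr rfl]
    by_cases p : 1 < β * orb β (i + n) <;> by_cases q : 1 < β * orb β (i + n + 1) <;>
      by_cases r : Even (i + n) <;> rcases hD' with rfl | rfl <;>
      simp only [p, q, r, if_true, if_false, not_true, not_false_iff] <;> simp

lemma seq_not_mem {β : ℝ} (h1 : 1 < β) (h2 : β < 2) : seq β ∉ U β := by
  have h0 : 0 < β⁻¹ := inv_pos.2 (by linarith)
  have h3 : β⁻¹ < 1 := inv_lt_one_of_one_lt₀ h1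
  intro h
  let e : ℕ → Fin 3 := fun i => if i = 0 then 1 else if seq β i = 2 then 2 else 0
  have he : proj β e = proj β (seq β) := by
    rw [proj_eq h1, proj_eq h1, Prod.mk.injEq]
    constructor
    · rw [V_succ h0 h3 (ind_mem _ _), V_succ h0 h3 (ind_mem 1 (seq β))]
      have e1 : (fun i => ind 1 (seq β) (i + 1)) = fun i => dg β (i + 0) := ind_seq β 0
      have e2 : (fun i => ind 1 e (i + 1)) = fun _ => 0 := by
        funext i
        simp only [ind, e, Nat.succ_ne_zero, if_false]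
        split_ifs <;> simp_all
      rw [e1, e2, V_orb h1 h2]
      simp [ind, e, seq, orb, V]
    · congr 1
      funext i
      simp only [ind, e]
      rcases i with _ | i
      · simp [seq]
      · simp only [Nat.succ_ne_zero, if_false]
        split_ifs <;> simp_all
  have := congrFun (h e he) 0
  simp [e, seq] at this

/-- The map is nowhere locally constant on `[golden ratio, 2)`, a set of positive measure. -/
theorem both :
    (∀ β ∈ Ico Real.goldenRatio 2, ¬ LocConst β) ∧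
      0 < volume {β ∈ Ioo (1 : ℝ) 2 | ¬ LocConst β} := by
  have h : ∀ β ∈ Ico Real.goldenRatio 2, ¬ LocConst β := by
    rintro β ⟨h1, h2⟩ ⟨ε, hε, H⟩
    have h3 := Real.one_lt_goldenRatio
    have h4 := Real.goldenRatio_sq
    obtain ⟨γ, g1, g2⟩ := exists_between (lt_min h2 (lt_add_of_pos_right β hε))
    rw [lt_min_iff] at g2
    have := H γ ⟨by linarith, g2.1⟩ (by rw [abs_of_pos (by linarith)]; linarith)
    refine seq_not_mem (by linarith) h2 (this ▸ seq_mem (by linarith) h2 g1 ?_)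
    nlinarith
  refine ⟨h, lt_of_lt_of_le ?_ (measure_mono (s := Ico Real.goldenRatio 2) fun β hβ =>
    ⟨⟨Real.one_lt_goldenRatio.trans_le hβ.1, hβ.2⟩, h β hβ⟩)⟩
  rw [Real.volume_Ico]
  exact ENNReal.ofReal_pos.2 (by linarith [Real.goldenRatio_lt_two])

theorem result : ∀ β ∈ Ico Real.goldenRatio 2, ¬ LocConst β :=
  both.1

end Pool.Agent.Results.MP_c4d56e_an.No
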